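import Mathlib

set_option autoImplicit false
open Set Filter Topology Metric

namespace Pool.Agent.H.MP_7a24ab_lc

abbrev W : Type := (Cardinal.aleph 1).ord.ToType

lemma cW : Cardinal.mk W = Cardinal.aleph 1 := by simp [W]
lemma cIio (a : W) : (Iio a).Countable := by
  rw [← Cardinal.le_aleph0_iff_set_countable, ← Order.lt_succ_iff, Cardinal.succ_aleph0]
  exact Cardinal.mk_Iio_toType_ord_lt a
lemma bdd {S : Set W} (h : S.Countable) : ∃ a, ∀ b ∈ S, b < a := by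
  by_contra! k
  have : (univ : Set W).Countable := (h.biUnion fun b _ => (cIio b).insert b).mono fun a _ => by
    obtain ⟨b, b1, b2⟩ := k a
    exact mem_biUnion b1 b2.eq_or_lt
  rw [← Cardinal.le_aleph0_iff_set_countable, Cardinal.mk_univ, cW] at this
  exact Cardinal.aleph0_lt_aleph_one.not_ge this

lemma closed_union {Z : Type} [TopologicalSpace Z] {B : Set Z} {S : ℕ → Set Z} (hB : IsClosed B)
    (hS : ∀ n, IsClosed (S n)) (h : ∀ z ∉ B, ∃ N, ∀ᶠ w in 𝓝 z, ∀ n ≥ N, w ∉ S n) :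
    IsClosed (B ∪ ⋃ n, S n) := by
  refine isOpen_compl_iff.1 (isOpen_iff_eventually.2 fun z hz => ?_)
  simp only [mem_compl_iff, mem_union, mem_iUnion, not_or, not_exists] at hz ⊢
  obtain ⟨N, hN⟩ := h z hz.1
  filter_upwards [hN, hB.isOpen_compl.mem_nhds hz.1, (eventually_all_finite (finite_Iio N)).2
    fun n _ => (hS n).isOpen_compl.mem_nhds (hz.2 n)] with w h1 h2 h3
  exact ⟨h2, fun n => (lt_or_ge n N).elim (h3 n) (h1 n)⟩

variable {Y : Type} [MetricSpace Y] [CompactSpace Y]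

def D (K : Set Y) : W → Set Y :=
  (wellFounded_lt (α := W)).fix fun a r => {x | x ∈ K ∧ ∀ b (h : b < a), AccPt x (𝓟 (r b h))}

omit [CompactSpace Y] in
lemma mem_D {K : Set Y} {a : W} {x : Y} : x ∈ D K a ↔ x ∈ K ∧ ∀ b < a, AccPt x (𝓟 (D K b)) := by
  rw [D, WellFounded.fix_eq]; rfl

omit [CompactSpace Y] in
lemma D_anti (K : Set Y) {a b : W} (h : a ≤ b) : D K b ⊆ D K a := fun _ hx =>
  mem_D.2 ⟨(mem_D.1 hx).1, fun c hc => (mem_D.1 hx).2 c (hc.trans_le h)⟩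

omit [CompactSpace Y] in
lemma D_closed {K : Set Y} (h : IsClosed K) (a : W) : IsClosed (D K a) := by
  have : D K a = K ∩ ⋂ b ∈ Iio a, derivedSet (D K b) := by
    ext x; simp [mem_D (a := a)]
  rw [this]
  exact h.inter (isClosed_biInter fun b _ => isClosed_derivedSet _)

def F2 (R : Set (Y × Y)) : Prop := (∀ x, {y | (x, y) ∈ R}.Finite) ∧ ∀ y, {x | (x, y) ∈ R}.Finite
def Rl (K K' : Set Y) (R : Set (Y × Y)) : Prop :=
  IsClosed R ∧ (∀ p ∈ R, p.1 ∈ K ∧ p.2 ∈ K') ∧ (∀ x ∈ K, ∃ y, (x, y) ∈ R) ∧ F2 R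

lemma mono {K K' : Set Y} {R : Set (Y × Y)} (h : Rl K K' R) (a : W) :
    ∀ x ∈ D K a, ∃ y, (x, y) ∈ R ∧ y ∈ D K' a := by
  induction a using WellFoundedLT.induction with
  | ind a ih =>
  intro x hx
  by_contra! k
  have : ∀ y, ∃ b, (x, y) ∈ R → b < a ∧ ¬ AccPt y (𝓟 (D K' b)) := fun y => by
    by_contra! q
    exact k y (q a).1 (mem_D.2 ⟨(h.2.1 _ (q a).1).2, fun b => (q b).2⟩)
  choose b hb using this
  have b1 := fun y hy => (hb y hy).1
  have b2 := fun y hy => (hb y hy).2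
  obtain ⟨y0, y1, y2⟩ := Set.exists_max_image _ b (h.2.2.2.1 x) (h.2.2.1 x (mem_D.1 hx).1)
  choose! φ φ1 φ2 using ih _ (b1 y0 y1)
  obtain ⟨U, hU⟩ := exists_ultrafilter_iff.2 ((mem_D.1 hx).2 _ (b1 y0 y1))
  have u1 : ∀ᶠ z in U, z ∈ D K (b y0) := le_principal_iff.1 (hU.trans inf_le_right)
  have u2 : Tendsto φ U (𝓝 (U.map φ).lim) := (U.map φ).le_nhds_lim
  have hy : (x, (U.map φ).lim) ∈ R := h.1.mem_of_tendsto (Tendsto.prodMk_nhds
    (tendsto_id'.2 (hU.trans (inf_le_left.trans nhdsWithin_le_nhds))) u2) (u1.mono φ1)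
  refine b2 _ hy (AccPt.mono (exists_ultrafilter_iff.1 ⟨U.map φ, le_inf (tendsto_nhdsWithin_iff.2 ⟨u2, ?_⟩)
    (le_principal_iff.2 (u1.mono φ2))⟩) (principal_mono.2 (D_anti _ (y2 _ hy))))
  filter_upwards [u1, (hU.trans (inf_le_left.trans (nhdsNE_le_cofinite x))) (h.2.2.2.2 _).compl_mem_cofinite]
    with z z1 z2 e
  exact z2 (by have := φ1 z z1; rwa [show φ z = _ from e] at this)

def Rk (C : Set Y) (r : Y → W) : Prop := ∀ x ∈ C, ∀ᶠ y in 𝓝[≠] x, y ∈ C → r y < r x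

lemma exmax {C : Set Y} (hC : IsClosed C) (hn : C.Nonempty) {r : Y → W} (h : Rk C r) :
    ∃ x ∈ C, ∀ z ∈ C, r z ≤ r x := by
  obtain ⟨t, t1, t2⟩ := hC.isCompact.elim_nhds_subcover (fun x => {y | y ∈ C → r y ≤ r x}) fun x hx =>
    (eventually_nhdsWithin_iff.1 (h x hx)).mono fun y hy k => by
      by_cases e : y = x
      · rw [e]
      · exact (hy e k).le
  obtain ⟨x, x1, x2⟩ := t.exists_max_image r (by
    obtain ⟨z, hz⟩ := hn
    obtain ⟨w, w1, -⟩ := mem_iUnion₂.1 (t2 hz)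
    exact ⟨w, w1⟩)
  refine ⟨x, t1 x x1, fun z hz => ?_⟩
  obtain ⟨w, w1, w2⟩ := mem_iUnion₂.1 (t2 hz)
  exact (w2 hz).trans (x2 w w1)

lemma TT (K' : Set Y) (r : Y → W) (a : W) : ∀ C, IsClosed C → Rk C r → (∀ x ∈ C, r x ≤ a) →
    ∀ x' ∈ D K' a, ∀ V ∈ 𝓝 x', ∃ R, Rl C (K' ∩ V) R := by
  induction a using WellFoundedLT.induction with
  | ind a ih =>
  intro C hC hr ha x' hx V hV
  let F := {x ∈ C | r x = a}
  have hF : F.Finite := by
    by_contra hi
    obtain ⟨x, x1, x2⟩ := Set.Infinite.exists_accPt_of_subset_isCompact hi hC.isCompact (sep_subset _ _)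
    obtain ⟨y, y1, y2⟩ := ((accPt_iff_frequently_nhdsNE.1 x2).and_eventually (hr x x1)).exists
    exact (y2 y1.1).not_ge (y1.2 ▸ ha x x1)
  let A : ℕ → Set Y := fun n => C ∩ {z | ((n + 1 : ℕ) : ENNReal)⁻¹ ≤ infEDist z F ∧ infEDist z F ≤ (n : ENNReal)⁻¹}
  have Ac : ∀ n, IsClosed (A n) := fun n => hC.inter ((isClosed_le continuous_const continuous_infEDist).inter
    (isClosed_le continuous_infEDist continuous_const))
  have AF : ∀ n, ∀ z ∈ A n, z ∉ F := fun n z hz k => by simpa [infEDist_zero_of_mem k] using hz.2.1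
  have pos : ∀ z ∉ F, infEDist z F ≠ 0 := fun z hz k => hz ((mem_iff_infEDist_zero_of_closed hF.isClosed).2 k)
  have Al : ∀ z ∉ F, ∃ N, ∀ᶠ w in 𝓝 z, ∀ n ≥ N, w ∉ A n := fun z hz => by
    obtain ⟨N, hN⟩ := ENNReal.exists_inv_nat_lt (pos z hz)
    exact ⟨N, mem_of_superset ((isOpen_lt continuous_const continuous_infEDist).mem_nhds hN) fun w hw n hn k =>
      (k.2.2.trans (ENNReal.inv_le_inv.2 (by exact_mod_cast hn))).not_gt hw⟩
  let V' : ℕ → Set Y := fun n => V ∩ (ball x' (1 / (n + 1)) ∩ {x'}ᶜ)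
  have Vl : ∀ z ≠ x', ∃ N, ∀ᶠ w in 𝓝 z, ∀ n ≥ N, w ∉ V' n := fun z hz => by
    obtain ⟨N, hN⟩ := exists_nat_one_div_lt (dist_pos.2 hz)
    exact ⟨N, mem_of_superset ((isOpen_lt continuous_const (continuous_id.dist continuous_const)).mem_nhds hN)
      fun w hw n hn k => ((mem_ball.1 k.2.1).trans_le (Nat.one_div_le_one_div hn)).not_gt hw⟩
  have : ∀ n, ∃ R, Rl (A n) (K' ∩ V' n) R := fun n => by
    rcases (A n).eq_empty_or_nonempty with e | e
    · exact ⟨∅, isClosed_empty, by simp, by simp [e], by simp [F2]⟩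
    have hr' : Rk (A n) r := fun x hx => (hr x hx.1).mono fun y hy k => hy k.1
    obtain ⟨x, x1, x2⟩ := exmax (Ac n) e hr'
    have lt : r x < a := (ha x x1.1).lt_of_ne fun k => AF n x x1 ⟨x1.1, k⟩
    obtain ⟨y, y1, y2⟩ := ((accPt_iff_frequently.1 ((mem_D.1 hx).2 _ lt)).and_eventually
      ((eventually_mem_nhds_iff.2 hV).and (ball_mem_nhds x' (Nat.one_div_pos_of_nat (n := n))))).exists
    exact ih _ lt _ (Ac n) hr' x2 y y1.2 _ (inter_mem y2.1 ((isOpen_ball.inter isOpen_compl_singleton).mem_nhds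
      ⟨y2.2, y1.1⟩))
  choose R R1 R2 R3 R4 using this
  have fin : ∀ {S : ℕ → Set Y} {z : Y}, (∃ N, ∀ᶠ w in 𝓝 z, ∀ n ≥ N, w ∉ S n) → {n | z ∈ S n}.Finite :=
    fun ⟨N, hN⟩ => (finite_Iio N).subset fun n hn => not_le.1 fun k => hN.self_of_nhds n k hn
  refine ⟨F ×ˢ {x'} ∪ ⋃ n, R n, closed_union (hF.isClosed.prod isClosed_singleton) R1 fun p hp => ?_, ?_,
    fun x hx => ?_, fun x => ?_, fun y => ?_⟩
  · rcases not_and_or.1 hp with k | k
    · obtain ⟨N, hN⟩ := Al _ k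
      exact ⟨N, ((continuous_fst.tendsto p).eventually hN).mono fun w hw n hn q => hw n hn (R2 n w q).1⟩
    · obtain ⟨N, hN⟩ := Vl _ k
      exact ⟨N, ((continuous_snd.tendsto p).eventually hN).mono fun w hw n hn q => hw n hn (R2 n w q).2.2⟩
  · rintro p (⟨k, q⟩ | k)
    · exact ⟨k.1, q ▸ ⟨(mem_D.1 hx).1, mem_of_mem_nhds hV⟩⟩
    · obtain ⟨n, hn⟩ := mem_iUnion.1 k
      exact ⟨(R2 n p hn).1.1, (R2 n p hn).2.1, (R2 n p hn).2.2.1⟩
  · by_cases k : x ∈ F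
    · exact ⟨x', Or.inl ⟨k, rfl⟩⟩
    have ex : ∃ n : ℕ, ((n + 1 : ℕ) : ENNReal)⁻¹ ≤ infEDist x F := (ENNReal.exists_inv_nat_lt (pos x k)).imp
      fun n hn => (ENNReal.inv_le_inv.2 (by exact_mod_cast n.le_succ)).trans hn.le
    classical
    obtain ⟨y, hy⟩ := R3 (Nat.find ex) x ⟨hx, Nat.find_spec ex, by
      cases e : Nat.find ex with
      | zero => simp
      | succ m => exact (not_le.1 (Nat.find_min ex (show m < _ by omega))).le⟩
    exact ⟨y, Or.inr (mem_iUnion.2 ⟨_, hy⟩)⟩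
  · have : {n | x ∈ A n}.Finite := by
      by_cases k : x ∈ F
      · exact finite_empty.subset fun n hn => AF n x hn k
      · exact fin (Al x k)
    refine ((this.biUnion fun n _ => (R4 n).1 x).insert x').subset ?_
    rintro y (⟨-, q⟩ | k)
    · exact Or.inl q
    · obtain ⟨n, hn⟩ := mem_iUnion.1 k
      exact Or.inr (mem_biUnion (R2 n _ hn).1 hn)
  · have : {n | y ∈ V' n}.Finite := by
      by_cases k : y = x'
      · exact finite_empty.subset fun n hn => hn.2.2 k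
      · exact fin (Vl y k)
    refine (hF.union (this.biUnion fun n _ => (R4 n).2 y)).subset ?_
    rintro x (⟨q, -⟩ | k)
    · exact Or.inl q
    · obtain ⟨n, hn⟩ := mem_iUnion.1 k
      exact Or.inr (mem_biUnion (R2 n _ hn).2.2 hn)

lemma perf {K : Set Y} (h : IsClosed K) : ∃ a, Perfect (D K a) := by
  obtain ⟨T, T1, T2⟩ := TopologicalSpace.isOpen_iUnion_countable (fun a => (D K a)ᶜ)
    fun a => (D_closed h a).isOpen_compl
  obtain ⟨a, ha⟩ := bdd T1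
  obtain ⟨b, hb⟩ := bdd (countable_singleton a)
  refine ⟨a, D_closed h a, fun x hx => (mem_D.1 (show x ∈ D K b from ?_)).2 a (hb a rfl)⟩
  by_contra k
  obtain ⟨c, c1, c2⟩ := mem_iUnion₂.1 (T2.ge (mem_iUnion.2 ⟨b, k⟩))
  exact c2 (D_anti K (ha c c1).le hx)

omit [CompactSpace Y] in
lemma graph {K K' : Set Y} (h : IsClosed K) {f : Y → Y} (hc : Continuous f) (hi : Function.Injective f)
    (hm : MapsTo f K K') : Rl K K' {p | p.1 ∈ K ∧ p.2 = f p.1} :=
  ⟨(h.preimage continuous_fst).inter (isClosed_eq continuous_snd (hc.comp continuous_fst)),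
    fun p hp => ⟨hp.1, hp.2 ▸ hm hp.1⟩, fun x hx => ⟨f x, hx, rfl⟩,
    fun x => (finite_singleton (f x)).subset fun _ hy => hy.2,
    fun y => ((finite_singleton y).preimage hi.injOn).subset fun _ hx => hx.2.symm⟩

theorem le_of (HP : ∀ P : Set Y, Perfect P → P.Nonempty →
      ∃ f : Y → Y, range f ⊆ P ∧ Continuous f ∧ Function.Injective f)
    {K K' : Set Y} (h : IsClosed K) (h' : IsClosed K') (H : ∀ a, (D K a).Nonempty → (D K' a).Nonempty) :
    ∃ R, Rl K K' R := by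
  by_cases k : ∀ a, (D K' a).Nonempty
  · obtain ⟨a, ha⟩ := perf h'
    obtain ⟨f, f1, f2, f3⟩ := HP _ ha (k a)
    exact ⟨_, graph h f2 f3 fun x _ => (mem_D.1 (f1 (mem_range_self x))).1⟩
  obtain ⟨a, ha⟩ := not_forall.1 k
  have : ∀ x, ∃ b, x ∈ K → ¬ AccPt x (𝓟 (D K b)) ∧ ∀ c < b, AccPt x (𝓟 (D K c)) := fun x => by
    by_cases hx : x ∈ K
    swap
    · exact ⟨a, fun k => absurd k hx⟩
    have : ∃ b, ¬ AccPt x (𝓟 (D K b)) := by
      by_contra! q
      exact ha (H a ⟨x, mem_D.2 ⟨hx, fun b _ => q b⟩⟩)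
    obtain ⟨b, b1, b2⟩ := (wellFounded_lt (α := W)).has_min {b | ¬ AccPt x (𝓟 (D K b))} this
    exact ⟨b, fun _ => ⟨b1, fun c hc => not_not.1 fun q => b2 c q hc⟩⟩
  choose r hr using this
  have r1 := fun x hx => (hr x hx).1
  have r2 := fun x hx => (hr x hx).2
  clear hr
  have hr : Rk K r := fun x hx => (not_frequently.1 (mt accPt_iff_frequently_nhdsNE.2 (r1 x hx))).mono
    fun y hy k => not_le.1 fun q => hy (mem_D.2 ⟨k, fun c hc => r2 y k c (hc.trans_le q)⟩)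
  rcases K.eq_empty_or_nonempty with e | e
  · exact ⟨∅, isClosed_empty, by simp, by simp [e], by simp [F2]⟩
  obtain ⟨x, x1, x2⟩ := exmax h e hr
  obtain ⟨x', hx⟩ := H (r x) ⟨x, mem_D.2 ⟨x1, r2 x x1⟩⟩
  simpa using TT K' r _ K h hr x2 x' hx univ univ_mem

end Pool.Agent.H.MP_7a24ab_lc
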